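import Mathlib
import Pool.Agent.Helper18.ConstantWidth

set_option autoImplicit false

namespace Pool.Agent.Results.MP_04ec84_gt.ExactValue

open Pool.Agent.Helper18.ConstantWidth

/-- For every `d ≥ 2` the largest possible value of `diam M(K)` over all sets `K ⊂ ℝ^d` of constant
width `1` is `1/2` if `d = 2` and `√2/2` if `d ≥ 3`; the maximum is attained. -/
theorem result : ∀ d : ℕ, 2 ≤ d →
    IsGreatest {r : ℝ | ∃ K : Set (EuclideanSpace ℝ (Fin d)),
      IsConstantWidthOne K ∧ r = Metric.diam (midpoints K)} (if d = 2 then 1 / 2 else √2 / 2) := by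
  intro d hd
  by_cases h : d = 2
  · subst h
    rw [if_pos rfl]
    constructor
    · obtain ⟨K, hK, h⟩ := attained_two
      exact ⟨K, hK, h.symm⟩
    · rintro r ⟨K, hK, rfl⟩
      exact diam_le_of (by norm_num) fun p hp q hq => upper_two hK hp hq
  · rw [if_neg h]
    constructor
    · obtain ⟨K, hK, h⟩ := attained_ge (d := d) (by omega)
      exact ⟨K, hK, h.symm⟩
    · rintro r ⟨K, hK, rfl⟩
      exact diam_le_of (by positivity) fun p hp q hq => upper_all hK hp hq

end Pool.Agent.Results.MP_04ec84_gt.ExactValue
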